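import Mathlib
import Pool.Agent.Helper829.TDom2

set_option autoImplicit false
set_option linter.unusedSectionVars false

/-!
# MP_579feb_co: total restrained domination in connected cubic graphs

Every connected cubic graph of order `n` has a total restrained dominating set of size at
most `n / 2`.
-/

namespace Pool.Agent.Results.MP_579feb_co.CubicHalf

open Finset Pool.Agent.Helper829.TDom

/-- `S` is a total restrained dominating set: every vertex has a neighbour in `S`, and every vertex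
outside `S` has a neighbour outside `S`. -/
def IsTRD {V : Type} (G : SimpleGraph V) (S : Finset V) : Prop :=
  (∀ v, ∃ u ∈ S, G.Adj v u) ∧ ∀ v, v ∉ S → ∃ u, u ∉ S ∧ G.Adj v u

/-- The total restrained domination number. -/
noncomputable def gammaTR {V : Type} (G : SimpleGraph V) : ℕ :=
  sInf {k | ∃ S : Finset V, IsTRD G S ∧ S.card = k}

variable {V : Type} [Fintype V] [DecidableEq V] (G : SimpleGraph V) [DecidableRel G.Adj]

/-- The final counting step. -/
theorem final2 (hreg : G.IsRegularOfDegree 3) (P : Finset V) (x y : V) (hxy : G.Adj x y)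
    (hx : x ∈ P) (hy : y ∈ P)
    (h : ∀ w, w ≠ x → w ≠ y → (∃ u ∈ P, G.Adj w u) ∧ ∃ u, u ∉ P ∧ G.Adj w u)
    (htri : ∀ w, G.Adj w x → ¬ G.Adj w y) :
    ∃ S : Finset V, IsTRD G S ∧ 2 * S.card ≤ Fintype.card V := by
  classical
  have hne : x ≠ y := G.ne_of_adj hxy
  have hPtd : ∀ v, ∃ u ∈ P, G.Adj v u := by
    intro v
    by_cases h1 : v = x
    · subst h1; exact ⟨y, hy, hxy⟩
    · by_cases h2 : v = y
      · subst h2; exact ⟨x, hx, hxy.symm⟩
      · exact (h v h1 h2).1
  obtain ⟨S, hS, hmin⟩ := Finset.exists_min_image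
    ((P.powerset).filter (fun S => x ∈ S ∧ y ∈ S ∧ ∀ v, ∃ u ∈ S, G.Adj v u)) Finset.card
    ⟨P, by simp only [mem_filter, mem_powerset]; exact ⟨Finset.Subset.refl _, hx, hy, hPtd⟩⟩
  simp only [mem_filter, mem_powerset] at hS hmin
  obtain ⟨hSP, hxS, hyS, hSd⟩ := hS
  -- private neighbours
  have hpriv : ∀ u ∈ S, u ≠ x → u ≠ y → ∃ w, G.Adj w u ∧ ∀ u' ∈ S, G.Adj w u' → u' = u := by
    intro u hu hux huy
    by_contra hcon
    push Not at hcon
    have hcard := hmin (S.erase u) ⟨(Finset.erase_subset _ _).trans hSP,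
      Finset.mem_erase.2 ⟨hux.symm, hxS⟩, Finset.mem_erase.2 ⟨huy.symm, hyS⟩, by
      intro v
      obtain ⟨u1, hu1, hadj⟩ := hSd v
      by_cases hh : u1 = u
      · subst hh
        obtain ⟨u', hu', hadj', hne⟩ := hcon v hadj
        exact ⟨u', Finset.mem_erase.2 ⟨hne, hu'⟩, hadj'⟩
      · exact ⟨u1, Finset.mem_erase.2 ⟨hh, hu1⟩, hadj⟩⟩
    have := Finset.card_erase_lt_of_mem hu
    omega
  have hSres : ∀ v, v ∉ S → ∃ u, u ∉ S ∧ G.Adj v u := by
    intro v hv
    have h1 : v ≠ x := by rintro rfl; exact hv hxS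
    have h2 : v ≠ y := by rintro rfl; exact hv hyS
    obtain ⟨u, hu, hadj⟩ := (h v h1 h2).2
    exact ⟨u, fun h => hu (hSP h), hadj⟩
  set S' := S.filter (fun s => ∃ w, G.Adj w s ∧ ∀ u' ∈ S, G.Adj w u' → u' = s) with hS'
  set P1 := univ.filter (fun w => (S.filter (fun y => G.Adj w y)).card = 1) with hP1
  set A3 := univ.filter (fun w => ∀ u, G.Adj w u → u ∈ S) with hA3
  have hsd : S \ S' ⊆ {x, y} := by
    intro s hs
    rw [mem_sdiff, hS', mem_filter, not_and] at hs
    by_contra hcon
    simp only [mem_insert, mem_singleton, not_or] at hcon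
    exact hs.2 hs.1 (hpriv s hs.1 hcon.1 hcon.2)
  have hA3sub : A3 ⊆ {x, y} := by
    intro w hw
    rw [hA3, mem_filter] at hw
    by_contra hcon
    simp only [mem_insert, mem_singleton, not_or] at hcon
    obtain ⟨u, hu, hadj⟩ := (h w hcon.1 hcon.2).2
    exact hu (hSP (hw.2 u hadj))
  have hPcard : S'.card ≤ P1.card := by
    have hp : ∀ s ∈ S', ∃ w, G.Adj w s ∧ ∀ u' ∈ S, G.Adj w u' → u' = s :=
      fun s hs => (mem_filter.1 hs).2
    choose! p hp1 hp2 using hp
    apply Finset.card_le_card_of_injOn p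
    · intro u hu
      have hu := mem_coe.1 hu
      rw [hP1, Finset.mem_coe, mem_filter]
      refine ⟨mem_univ _, ?_⟩
      rw [Finset.card_eq_one]
      refine ⟨u, ?_⟩
      ext z
      simp only [mem_filter, mem_singleton]
      constructor
      · rintro ⟨hz, hadj⟩
        exact hp2 u hu z hz hadj
      · rintro rfl
        exact ⟨(mem_filter.1 hu).1, hp1 z hu⟩
    · intro u hu u' hu' heq
      have hu := mem_coe.1 hu
      have hu' := mem_coe.1 hu'
      have := hp1 u' hu'
      rw [← heq] at this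
      exact (hp2 u hu u' (mem_filter.1 hu').1 this).symm
  have hkey : ∀ w : V, (S.filter (fun y => G.Adj w y)).card +
      (if (S.filter (fun y => G.Adj w y)).card = 1 then 1 else 0) ≤
      2 + (if (∀ u, G.Adj w u → u ∈ S) then 1 else 0) := by
    intro w
    have hsp := split3 G hreg S w
    by_cases hall : ∀ u, G.Adj w u → u ∈ S
    · simp only [if_pos hall]
      split_ifs with h <;> omega
    · simp only [if_neg hall]
      push Not at hall
      obtain ⟨u, hadj, hu⟩ := hall
      have : 0 < ((Sᶜ).filter (fun y => G.Adj w y)).card := by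
        apply Finset.card_pos.2
        exact ⟨u, by simp [hu, hadj]⟩
      split_ifs with h <;> omega
  have hsum := Finset.sum_le_sum (fun w (_ : w ∈ (univ : Finset V)) => hkey w)
  rw [Finset.sum_add_distrib, Finset.sum_add_distrib, ← Finset.card_filter, ← Finset.card_filter,
    dc G univ S, Finset.sum_congr rfl (fun y _ => deg3 G hreg y)] at hsum
  simp only [sum_const, smul_eq_mul] at hsum
  rw [Finset.card_univ, ← hP1, ← hA3] at hsum
  have heven : Even (Fintype.card V) := by
    have := bd_parity G hreg univ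
    have h0 : bd G univ = 0 := by
      unfold bd
      simp
    rw [h0, Finset.card_univ] at this
    simpa using this
  rw [Nat.even_iff] at heven
  have hsplit : (S \ S').card + S'.card = S.card :=
    Finset.card_sdiff_add_card_eq_card (filter_subset _ _)
  have hf2 : (S \ S').card ≤ 2 := (card_le_card hsd).trans card_le_two
  have ht2 : A3.card ≤ 2 := (card_le_card hA3sub).trans card_le_two
  by_cases hgood : 2 * S.card ≤ Fintype.card V
  · exact ⟨S, ⟨hSd, hSres⟩, hgood⟩
  -- the tight case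
  have hf : (S \ S').card = 2 := by omega
  have ht : A3.card = 2 := by omega
  have hfe : S \ S' = {x, y} :=
    eq_of_subset_of_card_le hsd (by rw [hf]; exact card_le_two)
  have hte : A3 = {x, y} :=
    eq_of_subset_of_card_le hA3sub (by rw [ht]; exact card_le_two)
  have hxA : ∀ u, G.Adj x u → u ∈ S := by
    have : x ∈ A3 := by rw [hte]; simp
    rw [hA3, mem_filter] at this
    exact this.2
  have hyA : ∀ u, G.Adj y u → u ∈ S := by
    have : y ∈ A3 := by rw [hte]; simp
    rw [hA3, mem_filter] at this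
    exact this.2
  have hxp : ∀ w, G.Adj w x → ∃ u' ∈ S, G.Adj w u' ∧ u' ≠ x := by
    have : x ∈ S \ S' := by rw [hfe]; simp
    rw [mem_sdiff, hS', mem_filter, not_and] at this
    have h1 := this.2 this.1
    push Not at h1
    intro w hw
    obtain ⟨u', h2, h3, h4⟩ := h1 w hw
    exact ⟨u', h2, h3, h4⟩
  have hyp : ∀ w, G.Adj w y → ∃ u' ∈ S, G.Adj w u' ∧ u' ≠ y := by
    have : y ∈ S \ S' := by rw [hfe]; simp
    rw [mem_sdiff, hS', mem_filter, not_and] at this
    have h1 := this.2 this.1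
    push Not at h1
    intro w hw
    obtain ⟨u', h2, h3, h4⟩ := h1 w hw
    exact ⟨u', h2, h3, h4⟩
  -- `P` without `x, y` and its complement are both total dominating sets
  set P3 := (P.erase x).erase y with hP3
  have mP3 : ∀ z, z ∈ P3 ↔ z ≠ y ∧ z ≠ x ∧ z ∈ P := by
    intro z; rw [hP3, mem_erase, mem_erase]
  have hthird : ∀ a b : V, G.Adj a b → ∃ c, G.Adj a c ∧ c ≠ b ∧ c ≠ a := by
    intro a b hab
    have h3 := deg3 G hreg a
    obtain ⟨c, hc, hne'⟩ := Finset.exists_mem_ne
      (by rw [h3]; norm_num : 1 < (univ.filter (fun y => G.Adj a y)).card) b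
    have hc' : G.Adj a c := by simpa using hc
    exact ⟨c, hc', hne', (G.ne_of_adj hc').symm⟩
  have hboth : ∀ w, (∃ u ∈ P3, G.Adj w u) ∧ ∃ u, u ∉ P3 ∧ G.Adj w u := by
    intro w
    by_cases h1 : w = x
    · subst h1
      obtain ⟨c, hc1, hc2, hc3⟩ := hthird w y hxy
      refine ⟨⟨c, (mP3 c).2 ⟨hc2, hc3, hSP (hxA c hc1)⟩, hc1⟩, y, ?_, hxy⟩
      rw [mP3]; exact fun h => h.1 rfl
    by_cases h2 : w = y
    · subst h2
      obtain ⟨c, hc1, hc2, hc3⟩ := hthird w x hxy.symm
      refine ⟨⟨c, (mP3 c).2 ⟨hc3, hc2, hSP (hyA c hc1)⟩, hc1⟩, x, ?_, hxy.symm⟩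
      rw [mP3]; exact fun h => h.2.1 rfl
    by_cases h3 : G.Adj w x
    · obtain ⟨u', hu'S, hadj', hne'⟩ := hxp w h3
      have h4 : u' ≠ y := by rintro rfl; exact htri w h3 hadj'
      refine ⟨⟨u', (mP3 u').2 ⟨h4, hne', hSP hu'S⟩, hadj'⟩, x, ?_, h3⟩
      rw [mP3]; exact fun h => h.2.1 rfl
    by_cases h4 : G.Adj w y
    · obtain ⟨u', hu'S, hadj', hne'⟩ := hyp w h4
      have h5 : u' ≠ x := by rintro rfl; exact h3 hadj'
      refine ⟨⟨u', (mP3 u').2 ⟨hne', h5, hSP hu'S⟩, hadj'⟩, y, ?_, h4⟩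
      rw [mP3]; exact fun h => h.1 rfl
    obtain ⟨⟨u, hu, hadj⟩, u', hu', hadj'⟩ := h w h1 h2
    refine ⟨⟨u, (mP3 u).2 ⟨?_, ?_, hu⟩, hadj⟩, u', ?_, hadj'⟩
    · rintro rfl; exact h4 hadj
    · rintro rfl; exact h3 hadj
    · rw [mP3]; exact fun h => hu' h.2.2
  by_cases hsz : 2 * P3.card ≤ Fintype.card V
  · exact ⟨P3, ⟨fun v => (hboth v).1, fun v _ => (hboth v).2⟩, hsz⟩
  · refine ⟨P3ᶜ, ⟨?_, ?_⟩, ?_⟩
    · intro v
      obtain ⟨u, hu, hadj⟩ := (hboth v).2
      exact ⟨u, mem_compl.2 hu, hadj⟩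
    · intro v _
      obtain ⟨u, hu, hadj⟩ := (hboth v).1
      exact ⟨u, fun h => (mem_compl.1 h) hu, hadj⟩
    · have := card_compl P3
      have := card_le_univ P3
      omega

/-- The colouring step. -/
theorem colour2 (hconn : G.Connected) (hreg : G.IsRegularOfDegree 3) (φ : V → V)
    (hinj : Function.Injective φ) (hadj : ∀ v, G.Adj v (φ v)) (x0 y0 : V)
    (ha : φ y0 = x0) (hb : φ x0 = y0) (htri : ∀ w, G.Adj w x0 → ¬ G.Adj w y0) :
    ∃ S : Finset V, IsTRD G S ∧ 2 * S.card ≤ Fintype.card V := by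
  classical
  have hxy : G.Adj x0 y0 := by rw [← hb]; exact hadj x0
  have hbij : Function.Bijective φ := Finite.injective_iff_bijective.1 hinj
  -- level predicate
  let R : ℕ → V → Prop := fun n => Nat.rec (motive := fun _ => V → Prop)
    (fun v => v = x0 ∨ v = y0) (fun _ P v => ∃ w u, φ w = v ∧ u ≠ v ∧ G.Adj w u ∧ P u) n
  have hR0 : ∀ v, R 0 v ↔ (v = x0 ∨ v = y0) := fun v => Iff.rfl
  have hRs : ∀ n v, R (n + 1) v ↔ ∃ w u, φ w = v ∧ u ≠ v ∧ G.Adj w u ∧ R n u := fun n v => Iff.rfl
  -- everything is reachable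
  have hreach : ∀ v, ∃ n, R n v := by
    by_contra hcon
    push Not at hcon
    obtain ⟨q0, hq0⟩ := hcon
    set Q : Finset V := univ.filter (fun v => ∀ n, ¬ R n v) with hQ
    have hQmem : ∀ v, v ∈ Q ↔ ∀ n, ¬ R n v := by intro v; simp [hQ]
    set W : Finset V := univ.filter (fun w => φ w ∈ Q) with hW
    have hWmem : ∀ w, w ∈ W ↔ φ w ∈ Q := by intro v; simp [hW]
    have hWQ : W.card = Q.card := by
      rw [← Finset.card_image_of_injective W hinj]
      congr 1
      ext v
      rw [Finset.mem_image]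
      constructor
      · rintro ⟨w, hw, rfl⟩; exact (hWmem w).1 hw
      · intro hv
        obtain ⟨w, rfl⟩ := hbij.2 v
        exact ⟨w, (hWmem w).2 hv, rfl⟩
    have hNW : ∀ w ∈ W, ∀ u, G.Adj w u → u ∈ Q := by
      intro w hw u hwu
      rw [hWmem] at hw
      by_cases huv : u = φ w
      · rw [huv]; exact hw
      · rw [hQmem] at hw ⊢
        intro n hn
        exact hw (n + 1) ((hRs n _).2 ⟨w, u, rfl, huv, hwu, hn⟩)
    have hcount : ∑ w ∈ W, (Q.filter (fun y => G.Adj w y)).card = 3 * Q.card := by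
      rw [← hWQ]
      have : ∀ w ∈ W, (Q.filter (fun y => G.Adj w y)).card = 3 := by
        intro w hw
        rw [← deg3 G hreg w]
        congr 1
        ext y
        simp only [mem_filter, mem_univ, true_and]
        exact ⟨fun h => h.2, fun h => ⟨hNW w hw y h, h⟩⟩
      rw [Finset.sum_congr rfl this]
      simp [mul_comm]
    rw [dc G W Q] at hcount
    have hNQ : ∀ q ∈ Q, ∀ w, G.Adj q w → w ∈ W := by
      by_contra hcon2
      push Not at hcon2
      obtain ⟨q, hq, w, hqw, hw⟩ := hcon2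
      have hlt : ∑ y ∈ Q, (W.filter (fun x => G.Adj y x)).card < ∑ y ∈ Q, 3 := by
        apply Finset.sum_lt_sum
        · intro y _
          have := split3 G hreg W y
          omega
        · refine ⟨q, hq, ?_⟩
          have h3 := split3 G hreg W q
          have : 0 < ((Wᶜ).filter (fun x => G.Adj q x)).card :=
            Finset.card_pos.2 ⟨w, by simp [hw, hqw]⟩
          omega
      rw [hcount] at hlt
      simp [mul_comm] at hlt
    have hall : ∀ v, v ∈ Q ∨ v ∈ W := by
      intro v
      have hq0' : q0 ∈ Q := (hQmem q0).2 hq0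
      obtain ⟨p⟩ := hconn.preconnected q0 v
      have hgen : ∀ {a b : V}, G.Walk a b → (a ∈ Q ∨ a ∈ W) → (b ∈ Q ∨ b ∈ W) := by
        intro a b p
        induction p with
        | nil => exact fun h => h
        | cons hadj' _ ih =>
          intro h
          apply ih
          rcases h with h | h
          · right; exact hNQ _ h _ hadj'
          · left; exact hNW _ h _ hadj'
      exact hgen p (Or.inl hq0')
    rcases hall x0 with h | h
    · exact (hQmem x0).1 h 0 ((hR0 x0).2 (Or.inl rfl))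
    · have := hNW x0 h y0 hxy
      exact (hQmem y0).1 this 0 ((hR0 y0).2 (Or.inr rfl))
  let ℓ : V → ℕ := fun v => Nat.find (hreach v)
  have hℓ : ∀ v, R (ℓ v) v := fun v => Nat.find_spec (hreach v)
  have hℓmin : ∀ v n, R n v → ℓ v ≤ n := fun v n h => Nat.find_min' (hreach v) h
  have hℓsucc : ∀ w, 0 < ℓ (φ w) → ∃ u, G.Adj w u ∧ ℓ u + 1 = ℓ (φ w) := by
    intro w hpos
    obtain ⟨n, hn⟩ : ∃ n, ℓ (φ w) = n + 1 := ⟨ℓ (φ w) - 1, by omega⟩
    have h1 := hℓ (φ w)
    rw [hn, hRs] at h1
    obtain ⟨w', u, hw', hne', hadj', hu⟩ := h1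
    have : w' = w := hinj hw'
    subst this
    refine ⟨u, hadj', ?_⟩
    have h2 := hℓmin u n hu
    have h3 : ℓ (φ w') ≤ ℓ u + 1 :=
      hℓmin _ _ ((hRs _ _).2 ⟨w', u, rfl, hne', hadj', hℓ u⟩)
    omega
  have hℓ0 : ∀ v, ℓ v = 0 → v = x0 ∨ v = y0 := by
    intro v hv
    have := hℓ v
    rw [hv, hR0] at this
    exact this
  have hℓx : ℓ x0 = 0 := Nat.le_zero.1 (hℓmin x0 0 ((hR0 x0).2 (Or.inl rfl)))
  have hℓy : ℓ y0 = 0 := Nat.le_zero.1 (hℓmin y0 0 ((hR0 y0).2 (Or.inr rfl)))
  have hzero : ∀ w, ℓ (φ w) = 0 → w = x0 ∨ w = y0 := by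
    intro w hw
    rcases hℓ0 _ hw with h | h
    · right; apply hinj; rw [h, ha]
    · left; apply hinj; rw [h, hb]
  apply final2 G hreg (univ.filter (fun v => Even (ℓ v))) x0 y0 hxy
  · simp [hℓx]
  · simp [hℓy]
  · intro w hwx hwy
    have hpos : 0 < ℓ (φ w) := by
      rcases Nat.eq_zero_or_pos (ℓ (φ w)) with h | h
      · rcases hzero w h with h' | h'
        · exact absurd h' hwx
        · exact absurd h' hwy
      · exact h
    obtain ⟨u, hu, hlu⟩ := hℓsucc w hpos
    simp only [mem_filter, mem_univ, true_and]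
    by_cases hev : Even (ℓ (φ w))
    · refine ⟨⟨φ w, hev, hadj w⟩, u, ?_, hu⟩
      rw [← hlu, Nat.even_add_one] at hev
      exact hev
    · refine ⟨⟨u, ?_, hu⟩, φ w, hev, hadj w⟩
      rw [← hlu, Nat.even_add_one, not_not] at hev
      exact hev
  · exact htri

/-- The bridgeless case, with an edge in no triangle. -/
theorem case_pm2 (hconn : G.Connected) (hreg : G.IsRegularOfDegree 3)
    (h1 : ∀ C : Finset V, bd G C ≠ 1) (x0 y0 : V) (hxy : G.Adj x0 y0)
    (htri : ∀ w, G.Adj w x0 → ¬ G.Adj w y0) :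
    ∃ S : Finset V, IsTRD G S ∧ 2 * S.card ≤ Fintype.card V := by
  classical
  have hne : x0 ≠ y0 := G.ne_of_adj hxy
  have hV : Even (univ : Finset V).card := by
    have := bd_parity G hreg univ
    have h0 : bd G univ = 0 := by
      unfold bd
      simp
    rw [h0] at this
    simpa using this
  set P : Finset V := (univ : Finset V) \ {x0, y0} with hP
  have mP : ∀ v, v ∈ P ↔ v ≠ x0 ∧ v ≠ y0 := by intro v; simp [hP]
  have hPc : Pᶜ = {x0, y0} := by ext v; simp [mP]; tauto
  have hPcard : P.card + 2 = (univ : Finset V).card := by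
    have h := Finset.card_sdiff_add_card_eq_card (Finset.subset_univ ({x0, y0} : Finset V))
    rw [Finset.card_pair hne] at h
    exact h
  obtain ⟨f, hf⟩ := pm_on G hreg P (by
    rw [Nat.even_iff] at hV ⊢
    omega) (by
    intro C _ hC
    have h2 := bd_parity G hreg C
    have h3 := h1 C
    rw [Nat.even_iff] at h2
    rw [Nat.odd_iff] at hC
    omega) (by
    rw [dc, hPc, Finset.sum_pair hne]
    have h6 := split3 G hreg P x0
    have h7 := split3 G hreg P y0
    have h8 : 0 < ((Pᶜ).filter (fun y => G.Adj x0 y)).card :=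
      Finset.card_pos.2 ⟨y0, by rw [hPc]; simp [hxy]⟩
    have h9 : 0 < ((Pᶜ).filter (fun y => G.Adj y0 y)).card :=
      Finset.card_pos.2 ⟨x0, by rw [hPc]; simp [hxy.symm]⟩
    omega)
  let φ : V → V := fun v => if v = x0 then y0 else if v = y0 then x0 else f v
  have hφx : φ x0 = y0 := by simp [φ]
  have hφy : φ y0 = x0 := by simp [φ, hne.symm]
  have hφP : ∀ v ∈ P, φ v = f v := by
    intro v hv
    have := (mP v).1 hv
    simp [φ, this.1, this.2]
  have hcases : ∀ v, v = x0 ∨ v = y0 ∨ v ∈ P := by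
    intro v
    by_cases h : v = x0
    · exact Or.inl h
    by_cases h' : v = y0
    · exact Or.inr (Or.inl h')
    · exact Or.inr (Or.inr ((mP v).2 ⟨h, h'⟩))
  have hinv : ∀ v, φ (φ v) = v := by
    intro v
    rcases hcases v with rfl | rfl | h
    · rw [hφx, hφy]
    · rw [hφy, hφx]
    · rw [hφP v h, hφP _ (hf v h).1]; exact (hf v h).2.2
  have hφadj : ∀ v, G.Adj v (φ v) := by
    intro v
    rcases hcases v with rfl | rfl | h
    · rw [hφx]; exact hxy
    · rw [hφy]; exact hxy.symm
    · rw [hφP v h]; exact (hf v h).2.1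
  have hinj : Function.Injective φ := by
    intro a b hab
    rw [← hinv a, ← hinv b, hab]
  exact colour2 G hconn hreg φ hinj hφadj x0 y0 hφy hφx htri

/-- The case with a bridge. -/
theorem case_bridge2 (hconn : G.Connected) (hreg : G.IsRegularOfDegree 3)
    (h1 : ∃ C : Finset V, bd G C = 1) :
    ∃ S : Finset V, IsTRD G S ∧ 2 * S.card ≤ Fintype.card V := by
  classical
  obtain ⟨C0, hC0⟩ := h1
  obtain ⟨A, hA, hmin⟩ := Finset.exists_min_image (univ.filter (fun C => bd G C = 1)) Finset.card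
    ⟨C0, by simp [hC0]⟩
  simp only [mem_filter, mem_univ, true_and] at hA hmin
  -- the unique edge
  have hab : ∃ a ∈ A, ∃ b, b ∉ A ∧ G.Adj a b ∧ ∀ x ∈ A, ∀ y, y ∉ A → G.Adj x y → x = a ∧ y = b := by
    have hcard : (((A ×ˢ Aᶜ)).filter (fun p => G.Adj p.1 p.2)).card = 1 := by
      rw [← hA]
      unfold bd
      rw [Finset.card_filter, Finset.sum_product]
      apply Finset.sum_congr rfl
      intro x _
      rw [Finset.card_filter]
    rw [Finset.card_eq_one] at hcard
    obtain ⟨⟨a, b⟩, hab⟩ := hcard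
    have hmem : (a, b) ∈ ((A ×ˢ Aᶜ)).filter (fun p => G.Adj p.1 p.2) := by rw [hab]; simp
    simp only [mem_filter, mem_product, mem_compl] at hmem
    refine ⟨a, hmem.1.1, b, hmem.1.2, hmem.2, ?_⟩
    intro x hx y hy hxy
    have : (x, y) ∈ ((A ×ˢ Aᶜ)).filter (fun p => G.Adj p.1 p.2) := by
      simp only [mem_filter, mem_product, mem_compl]
      exact ⟨⟨hx, hy⟩, hxy⟩
    rw [hab, mem_singleton, Prod.mk.injEq] at this
    exact this
  obtain ⟨a, haA, b, hbA, hadjab, huniq⟩ := hab
  have hab' : a ≠ b := G.ne_of_adj hadjab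
  -- matching on A minus a
  obtain ⟨f, hf⟩ := pm_on G hreg (A.erase a) (by
    have h2 := bd_parity G hreg A
    rw [hA] at h2
    rw [Finset.card_erase_of_mem haA]
    have : 0 < A.card := Finset.card_pos.2 ⟨a, haA⟩
    rw [Nat.even_iff] at h2 ⊢
    omega) (by
    intro C hC hCo
    have h2 := bd_parity G hreg C
    have h3 : bd G C ≠ 1 := by
      intro h3
      have h4 := hmin C h3
      have h5 := Finset.card_le_card hC
      rw [Finset.card_erase_of_mem haA] at h5
      have : 0 < A.card := Finset.card_pos.2 ⟨a, haA⟩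
      omega
    rw [Nat.even_iff] at h2
    rw [Nat.odd_iff] at hCo
    omega) (by
    rw [dc]
    have h6 : ∀ y ∈ (A.erase a)ᶜ, y ≠ a → ((A.erase a).filter (fun x => G.Adj y x)).card = 0 := by
      intro y hy hya
      rw [Finset.card_eq_zero, Finset.filter_eq_empty_iff]
      intro x hx hyx
      simp only [mem_compl, mem_erase, not_and] at hy hx
      have hyA : y ∉ A := hy hya
      exact hx.1 (huniq x hx.2 y hyA hyx.symm).1
    rw [Finset.sum_eq_single_of_mem a (by simp) h6]
    have h7 := split3 G hreg (A.erase a) a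
    omega)
  -- Hall on the other side
  set B' : Finset V := (Aᶜ).erase b with hB'
  have hB'mem : ∀ v, v ∈ B' ↔ v ≠ b ∧ v ∉ A := by intro v; simp [hB']
  have hall := (Finset.all_card_le_biUnion_card_iff_exists_injective
    (fun w : {w // w ∈ B'} => (univ.filter (fun y => G.Adj w.1 y)).erase b)).1 (by
    intro C
    set N' := C.biUnion (fun w : {w // w ∈ B'} => (univ.filter (fun y => G.Adj w.1 y)).erase b) with hN'
    set C' : Finset V := C.map (Function.Embedding.subtype _) with hC'
    have hC'mem : ∀ x ∈ C', x ∈ B' := by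
      intro x hx
      rw [hC', Finset.mem_map] at hx
      obtain ⟨y, _, rfl⟩ := hx
      exact y.2
    have hle : ∀ x ∈ C', ((univ : Finset V).filter (fun y => G.Adj x y)).card ≤
        (N'.filter (fun y => G.Adj x y)).card + (({b} : Finset V).filter (fun y => G.Adj x y)).card := by
      intro x hx
      refine le_trans (Finset.card_le_card ?_) (Finset.card_union_le _ _)
      intro y hy
      simp only [mem_filter, mem_univ, true_and] at hy
      rw [Finset.mem_union]
      by_cases hyb : y = b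
      · right; simp [hyb, hyb ▸ hy]
      · left
        rw [Finset.mem_filter]
        refine ⟨?_, hy⟩
        rw [hN', Finset.mem_biUnion]
        rw [hC', Finset.mem_map] at hx
        obtain ⟨w, hw, rfl⟩ := hx
        refine ⟨w, hw, ?_⟩
        rw [Finset.mem_erase]
        exact ⟨hyb, by simpa using hy⟩
    have hsum := Finset.sum_le_sum hle
    rw [Finset.sum_add_distrib, Finset.sum_congr rfl (fun x _ => deg3 G hreg x),
      dc G C' N', dc G C' {b}, Finset.sum_singleton] at hsum
    have hb2 : (C'.filter (fun x => G.Adj b x)).card ≤ 2 := by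
      have h8 := split3 G hreg C' b
      have h9 : 0 < ((C'ᶜ).filter (fun y => G.Adj b y)).card := by
        apply Finset.card_pos.2
        refine ⟨a, ?_⟩
        simp only [mem_filter, mem_compl]
        refine ⟨fun h => ?_, hadjab.symm⟩
        exact ((hB'mem a).1 (hC'mem a h)).2 haA
      omega
    have hN3 : ∑ y ∈ N', (C'.filter (fun x => G.Adj y x)).card ≤ N'.card * 3 := by
      rw [← smul_eq_mul]
      apply Finset.sum_le_card_nsmul
      intro y _
      have := split3 G hreg C' y
      omega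
    simp only [sum_const, smul_eq_mul] at hsum
    have hcc : C'.card = C.card := by rw [hC', Finset.card_map]
    omega)
  obtain ⟨g, hginj, hg⟩ := hall
  have hg' : ∀ w : {w // w ∈ B'}, g w ∈ B' ∧ G.Adj w.1 (g w) := by
    intro w
    have h := hg w
    simp only [mem_erase, mem_filter, mem_univ, true_and] at h
    refine ⟨?_, h.2⟩
    rw [hB'mem]
    refine ⟨h.1, fun hgA => ?_⟩
    have := (huniq (g w) hgA w.1 ((hB'mem _).1 w.2).2 h.2.symm).2
    exact ((hB'mem _).1 w.2).1 this
  let φ : V → V := fun v => if v = a then b else if v = b then a else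
    if h : v ∈ B' then g ⟨v, h⟩ else f v
  have hφa : φ a = b := by simp [φ]
  have hφb : φ b = a := by simp [φ, hab'.symm]
  have hφB : ∀ v (h : v ∈ B'), φ v = g ⟨v, h⟩ := by
    intro v h
    have h' := (hB'mem v).1 h
    have hva : v ≠ a := by rintro rfl; exact h'.2 haA
    simp only [φ, if_neg hva, if_neg h'.1, dif_pos h]
  have hφA : ∀ v ∈ A.erase a, φ v = f v := by
    intro v hv
    rw [Finset.mem_erase] at hv
    have hvb : v ≠ b := by rintro rfl; exact hbA hv.2
    have hvB : v ∉ B' := fun h => ((hB'mem v).1 h).2 hv.2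
    simp only [φ, if_neg hv.1, if_neg hvb, dif_neg hvB]
  have hcases : ∀ v, v = a ∨ v = b ∨ v ∈ A.erase a ∨ v ∈ B' := by
    intro v
    by_cases h : v = a
    · exact Or.inl h
    by_cases h' : v = b
    · exact Or.inr (Or.inl h')
    by_cases h'' : v ∈ A
    · exact Or.inr (Or.inr (Or.inl (Finset.mem_erase.2 ⟨h, h''⟩)))
    · exact Or.inr (Or.inr (Or.inr ((hB'mem v).2 ⟨h', h''⟩)))
  have hφadj : ∀ v, G.Adj v (φ v) := by
    intro v
    rcases hcases v with rfl | rfl | h | h
    · rw [hφa]; exact hadjab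
    · rw [hφb]; exact hadjab.symm
    · rw [hφA v h]; exact (hf v h).2.1
    · rw [hφB v h]; exact (hg' ⟨v, h⟩).2
  have hsurj : Function.Surjective φ := by
    intro v
    rcases hcases v with rfl | rfl | h | h
    · exact ⟨b, hφb⟩
    · exact ⟨a, hφa⟩
    · refine ⟨f v, ?_⟩
      rw [hφA (f v) (hf v h).1]
      exact (hf v h).2.2
    · have hsg : Function.Surjective (fun w : {w // w ∈ B'} => (⟨g w, (hg' w).1⟩ : {w // w ∈ B'})) := by
        apply Finite.surjective_of_injective
        intro x y hxy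
        apply hginj
        exact congrArg Subtype.val hxy
      obtain ⟨w, hw⟩ := hsg ⟨v, h⟩
      refine ⟨w.1, ?_⟩
      rw [hφB w.1 w.2]
      exact congrArg Subtype.val hw
  have hinj : Function.Injective φ := Finite.injective_iff_surjective.2 hsurj
  refine colour2 G hconn hreg φ hinj hφadj a b hφb hφa ?_
  intro w hwa hwb
  by_cases hwA : w ∈ A
  · exact (G.ne_of_adj hwa) (huniq w hwA b hbA hwb).1
  · exact (G.ne_of_adj hwb) (huniq a haA w hwA hwa.symm).2

theorem nb_of (hreg : G.IsRegularOfDegree 3) {v p q s : V} (hp : G.Adj v p) (hq : G.Adj v q)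
    (hs : G.Adj v s) (hpq : p ≠ q) (hps : p ≠ s) (hqs : q ≠ s) :
    ∀ w, G.Adj v w → w = p ∨ w = q ∨ w = s := by
  intro w hw
  have h3 := deg3 G hreg v
  have hsub : ({p, q, s} : Finset V) ⊆ univ.filter (fun y => G.Adj v y) := by
    intro z hz
    simp only [mem_insert, mem_singleton] at hz
    rcases hz with rfl | rfl | rfl <;> simp [*]
  have hcard : ({p, q, s} : Finset V).card = 3 := by
    rw [Finset.card_eq_three]
    exact ⟨p, q, s, hpq, hps, hqs, rfl⟩
  have heq := Finset.eq_of_subset_of_card_le hsub (by rw [h3, hcard])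
  have : w ∈ ({p, q, s} : Finset V) := by rw [heq]; simp [hw]
  simpa using this

/-- If `p ~ q ~ s` are the neighbours of `v` then there is an edge in no triangle or a `K₄`. -/
theorem edge_aux (hreg : G.IsRegularOfDegree 3) {v p q s : V} (hp : G.Adj v p) (hq : G.Adj v q)
    (hs : G.Adj v s) (hps : p ≠ s) (hpq : G.Adj p q) (hqs : G.Adj q s) :
    (∃ x y, G.Adj x y ∧ ∀ w, G.Adj w x → ¬ G.Adj w y) ∨
    (∃ v p q s, G.Adj v p ∧ G.Adj v q ∧ G.Adj v s ∧ G.Adj p q ∧ G.Adj p s ∧ G.Adj q s) := by
  by_cases h : G.Adj p s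
  · exact Or.inr ⟨v, p, q, s, hp, hq, hs, hpq, h, hqs⟩
  · left
    have hpq' := G.ne_of_adj hpq
    have hqs' := G.ne_of_adj hqs
    have hvp := G.ne_of_adj hp
    have hvq := G.ne_of_adj hq
    have hvs := G.ne_of_adj hs
    -- the third neighbour of `p`
    have h3 := deg3 G hreg p
    obtain ⟨t, ht, htn⟩ : ∃ t ∈ univ.filter (fun y => G.Adj p y), t ∉ ({v, q} : Finset V) := by
      by_contra hcon
      push Not at hcon
      have h4 := Finset.card_le_card (fun x hx => hcon x hx : univ.filter (fun y => G.Adj p y) ⊆ ({v, q} : Finset V))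
      have h5 : ({v, q} : Finset V).card ≤ 2 := Finset.card_le_two
      omega
    simp only [mem_filter, mem_univ, true_and] at ht
    simp only [mem_insert, mem_singleton, not_or] at htn
    refine ⟨p, t, ht, ?_⟩
    intro w hwp hwt
    have htp := G.ne_of_adj ht
    rcases nb_of G hreg hp.symm hpq ht hvq (Ne.symm htn.1) (Ne.symm htn.2) w hwp.symm with h1 | h1 | h1
    · subst h1
      rcases nb_of G hreg hp hq hs hpq' hps hqs' t hwt with h2 | h2 | h2
      · exact htp h2.symm
      · exact htn.2 h2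
      · subst h2; exact h ht
    · subst h1
      rcases nb_of G hreg hq.symm hpq.symm hqs hvp hvs hps t hwt with h2 | h2 | h2
      · exact htn.1 h2
      · exact htp h2.symm
      · subst h2; exact h ht
    · subst h1; exact G.irrefl hwt

/-- There is an edge in no triangle or a `K₄`. -/
theorem edge_or_K4 (hreg : G.IsRegularOfDegree 3) (v : V) :
    (∃ x y, G.Adj x y ∧ ∀ w, G.Adj w x → ¬ G.Adj w y) ∨
    (∃ v p q s, G.Adj v p ∧ G.Adj v q ∧ G.Adj v s ∧ G.Adj p q ∧ G.Adj p s ∧ G.Adj q s) := by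
  by_cases hcon : ∃ x y, G.Adj x y ∧ ∀ w, G.Adj w x → ¬ G.Adj w y
  · exact Or.inl hcon
  push Not at hcon
  obtain ⟨p, q, s, hpq, hps, hqs, hN⟩ := Finset.card_eq_three.1 (deg3 G hreg v)
  have hm : ∀ w, G.Adj v w ↔ (w = p ∨ w = q ∨ w = s) := by
    intro w
    have : w ∈ univ.filter (fun y => G.Adj v y) ↔ w ∈ ({p, q, s} : Finset V) := by rw [hN]
    simpa using this
  have hp : G.Adj v p := (hm p).2 (by simp)
  have hq : G.Adj v q := (hm q).2 (by simp)
  have hs : G.Adj v s := (hm s).2 (by simp)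
  have h1 : G.Adj p q ∨ G.Adj p s := by
    obtain ⟨w, hw1, hw2⟩ := hcon v p hp
    rcases (hm w).1 hw1.symm with h | h | h
    · subst h; exact absurd hw2 (G.irrefl)
    · subst h; exact Or.inl hw2.symm
    · subst h; exact Or.inr hw2.symm
  have h2 : G.Adj q p ∨ G.Adj q s := by
    obtain ⟨w, hw1, hw2⟩ := hcon v q hq
    rcases (hm w).1 hw1.symm with h | h | h
    · subst h; exact Or.inl hw2.symm
    · subst h; exact absurd hw2 (G.irrefl)
    · subst h; exact Or.inr hw2.symm
  have h3 : G.Adj s p ∨ G.Adj s q := by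
    obtain ⟨w, hw1, hw2⟩ := hcon v s hs
    rcases (hm w).1 hw1.symm with h | h | h
    · subst h; exact Or.inl hw2.symm
    · subst h; exact Or.inr hw2.symm
    · subst h; exact absurd hw2 (G.irrefl)
  rcases h1 with h1 | h1
  · rcases h3 with h3 | h3
    · exact edge_aux G hreg hq hp hs hqs h1.symm h3.symm
    · exact edge_aux G hreg hp hq hs hps h1 h3.symm
  · rcases h2 with h2 | h2
    · exact edge_aux G hreg hq hp hs hqs h2 h1
    · exact edge_aux G hreg hp hs hq hpq h1 h2.symm

/-- The graph `K₄`. -/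
theorem caseK4 (hconn : G.Connected) (hreg : G.IsRegularOfDegree 3)
    (h : ∃ v p q s, G.Adj v p ∧ G.Adj v q ∧ G.Adj v s ∧ G.Adj p q ∧ G.Adj p s ∧ G.Adj q s) :
    ∃ S : Finset V, IsTRD G S ∧ 2 * S.card ≤ Fintype.card V := by
  obtain ⟨v, p, q, s, hp, hq, hs, hpq, hps, hqs⟩ := h
  have hpq' := G.ne_of_adj hpq
  have hps' := G.ne_of_adj hps
  have hqs' := G.ne_of_adj hqs
  have hvp := G.ne_of_adj hp
  have hvq := G.ne_of_adj hq
  have hvs := G.ne_of_adj hs
  have hall : ∀ w, w = v ∨ w = p ∨ w = q ∨ w = s := by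
    intro w
    obtain ⟨W⟩ := hconn.preconnected v w
    have hgen : ∀ {a b : V}, G.Walk a b → (a = v ∨ a = p ∨ a = q ∨ a = s) →
        (b = v ∨ b = p ∨ b = q ∨ b = s) := by
      intro a b W
      induction W with
      | nil => exact fun h => h
      | @cons a c b hadj' _ ih =>
        intro h
        apply ih
        rcases h with rfl | rfl | rfl | rfl
        · rcases nb_of G hreg hp hq hs hpq' hps' hqs' c hadj' with h | h | h <;> simp [h]
        · rcases nb_of G hreg hp.symm hpq hps hvq hvs hqs' c hadj' with h | h | h <;> simp [h]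
        · rcases nb_of G hreg hq.symm hpq.symm hqs hvp hvs hps' c hadj' with h | h | h <;> simp [h]
        · rcases nb_of G hreg hs.symm hps.symm hqs.symm hvp hvq hpq' c hadj' with h | h | h <;>
            simp [h]
    exact hgen W (Or.inl rfl)
  refine ⟨{v, p}, ⟨?_, ?_⟩, ?_⟩
  · intro w
    rcases hall w with rfl | rfl | rfl | rfl
    · exact ⟨p, by simp, hp⟩
    · exact ⟨v, by simp, hp.symm⟩
    · exact ⟨v, by simp, hq.symm⟩
    · exact ⟨v, by simp, hs.symm⟩
  · intro w hw
    simp only [mem_insert, mem_singleton, not_or] at hw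
    rcases hall w with rfl | rfl | rfl | rfl
    · exact absurd rfl hw.1
    · exact absurd rfl hw.2
    · exact ⟨s, by simp [hvs.symm, hps'.symm], hqs⟩
    · exact ⟨q, by simp [hvq.symm, hpq'.symm], hqs.symm⟩
  · have h4 : ({v, p, q, s} : Finset V).card = 4 := by
      rw [Finset.card_eq_four]
      exact ⟨v, p, q, s, hvp, hvq, hvs, hpq', hps', hqs', rfl⟩
    have h5 := Finset.card_le_univ ({v, p, q, s} : Finset V)
    have h6 : ({v, p} : Finset V).card = 2 := Finset.card_pair hvp
    omega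

theorem main (hconn : G.Connected) (hreg : G.IsRegularOfDegree 3) :
    ∃ S : Finset V, IsTRD G S ∧ 2 * S.card ≤ Fintype.card V := by
  by_cases h1 : ∀ C : Finset V, bd G C ≠ 1
  · obtain ⟨v⟩ := hconn.nonempty
    rcases edge_or_K4 G hreg v with ⟨x, y, hxy, htri⟩ | h
    · exact case_pm2 G hconn hreg h1 x y hxy htri
    · exact caseK4 G hconn hreg h
  · push Not at h1
    exact case_bridge2 G hconn hreg h1

/-- **MP_579feb_co, Q1.** Every connected cubic graph `G` of order `n` satisfies
`γ_tr(G) ≤ n / 2`. The second clause says that the minimum defining `γ_tr` is attained by a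
total restrained dominating set. -/
theorem result {V : Type} [Fintype V] (G : SimpleGraph V) [DecidableRel G.Adj]
    (hconn : G.Connected) (hreg : G.IsRegularOfDegree 3) :
    2 * gammaTR G ≤ Fintype.card V ∧
      ∃ S : Finset V, IsTRD G S ∧ S.card = gammaTR G ∧
        ∀ T : Finset V, IsTRD G T → S.card ≤ T.card := by
  classical
  obtain ⟨S, hS, hcard⟩ := main G hconn hreg
  have hne : {k | ∃ S : Finset V, IsTRD G S ∧ S.card = k}.Nonempty := ⟨S.card, S, hS, rfl⟩
  have hle : ∀ T : Finset V, IsTRD G T → gammaTR G ≤ T.card :=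
    fun T hT => Nat.sInf_le ⟨T, hT, rfl⟩
  obtain ⟨S0, hS0, hc0⟩ := Nat.sInf_mem hne
  refine ⟨?_, S0, hS0, hc0, ?_⟩
  · have := hle S hS
    omega
  · intro T hT
    have h1 := hle T hT
    have h2 : S0.card = gammaTR G := hc0
    omega

end Pool.Agent.Results.MP_579feb_co.CubicHalf
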